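import Mathlib

/-!
ORD, abstract part: elimination.
-/

set_option autoImplicit false

namespace Run7.h632.GEN

open Polynomial

/-- degree of the determinant of a matrix of polynomials -/
theorem natDegree_det_le {n : ℕ} (M : Matrix (Fin n) (Fin n) ℚ[X]) (b : Fin n → ℕ)
    (h : ∀ i j, (M i j).natDegree ≤ b j) : M.det.natDegree ≤ ∑ j, b j := by
  rw [Matrix.det_apply]
  refine natDegree_sum_le_of_forall_le _ _ fun σ _ => ?_
  refine (natDegree_smul_le _ _).trans ?_
  refine (natDegree_prod_le _ _).trans ?_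
  exact Finset.sum_le_sum fun j _ => h _ _

/-- degree of the resultant -/
theorem natDegree_resultant_le (f g : ℚ[X][X]) (m n e s : ℕ) (hf : ∀ i, (f.coeff i).natDegree ≤ e)
    (hg : ∀ i, (g.coeff i).natDegree ≤ s) : (f.resultant g m n).natDegree ≤ m * s + n * e := by
  unfold resultant
  refine (natDegree_det_le _ (fun j => Fin.addCases (fun _ : Fin m => s) (fun _ : Fin n => e) j)
    ?_).trans (le_of_eq ?_)
  · intro i j
    rw [sylvester, Matrix.of_apply]
    refine Fin.addCases (fun j₁ => ?_) (fun j₁ => ?_) j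
    · simp only [Fin.addCases_left]
      split_ifs
      · exact hg _
      · simp
    · simp only [Fin.addCases_right]
      split_ifs
      · exact hf _
      · simp
  · rw [Fin.sum_univ_add]
    simp

/-- elimination -/
theorem elimK {A K F : Type*} [CommRing A] [IsDomain A] [Field K] [Field F] [Algebra ℚ[X] K]
    [IsFractionRing ℚ[X] K] [Algebra K F] (iA : A →+* F) (hiA : Function.Injective iA)
    (ψ : ℚ[X] →+* A) (hψ : ∀ x, algebraMap K F (algebraMap ℚ[X] K x) = iA (ψ x))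
    (G : A) (halg : ∃ Φ : ℚ[X][X], Φ ≠ 0 ∧ Φ.eval₂ ψ G = 0) :
    ∃ (d e : ℕ), 1 ≤ d ∧ ∀ (Q : ℚ[X][X]) (s : ℕ), (∀ i, (Q.coeff i).natDegree ≤ s) →
      Q.eval₂ ψ G ≠ 0 → ∃ (r : ℚ[X]) (y : A), r ≠ 0 ∧ r.natDegree ≤ d * s + e * Q.natDegree ∧
        ψ r = Q.eval₂ ψ G * y := by
  classical
  have hφinj : Function.Injective (algebraMap ℚ[X] K) := IsFractionRing.injective ℚ[X] K
  have hev : ∀ Q : ℚ[X][X], aeval (iA G) (Q.map (algebraMap ℚ[X] K)) = iA (Q.eval₂ ψ G) := by
    intro Q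
    rw [aeval_def, eval₂_map, hom_eval₂]
    congr 1
    refine RingHom.ext fun x => ?_
    exact hψ x
  obtain ⟨Φ0, hΦ0, hΦ0'⟩ := halg
  have hint : IsIntegral K (iA G) := by
    rw [← isAlgebraic_iff_isIntegral]
    refine ⟨Φ0.map (algebraMap ℚ[X] K),
      (Polynomial.map_ne_zero_iff hφinj).2 hΦ0, ?_⟩
    rw [hev, hΦ0', map_zero]
  have hμirr : Irreducible (minpoly K (iA G)) := minpoly.irreducible hint
  obtain ⟨c, hc, hcμ⟩ :=
    IsLocalization.integerNormalization_spec (nonZeroDivisors ℚ[X]) (minpoly K (iA G))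
  generalize IsLocalization.integerNormalization (nonZeroDivisors ℚ[X]) (minpoly K (iA G)) = Φ
    at hcμ
  have hc0 : algebraMap ℚ[X] K c ≠ 0 := by
    intro h0
    have := hφinj (h0.trans (map_zero (algebraMap ℚ[X] K)).symm)
    exact nonZeroDivisors.ne_zero hc this
  have hf : Φ.map (algebraMap ℚ[X] K) = C (algebraMap ℚ[X] K c) * minpoly K (iA G) := by
    rw [hcμ, ← smul_eq_C_mul, algebraMap_smul]
  have hassoc : Associated (minpoly K (iA G)) (Φ.map (algebraMap ℚ[X] K)) := by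
    rw [hf]
    exact (associated_isUnit_mul_right_iff (isUnit_C.2 hc0.isUnit)).2 (Associated.refl _)
  have hfirr : Irreducible (Φ.map (algebraMap ℚ[X] K)) := hassoc.irreducible hμirr
  have hmu0 : aeval (iA G) (Φ.map (algebraMap ℚ[X] K)) = 0 := by
    rw [hf, map_mul, minpoly.aeval, mul_zero]
  have hd1 : 1 ≤ Φ.natDegree := by
    rw [← natDegree_map_eq_of_injective hφinj Φ]
    exact Irreducible.natDegree_pos hfirr
  have he' : ∀ i, (Φ.coeff i).natDegree ≤
      (Finset.range (Φ.natDegree + 1)).sup (fun i => (Φ.coeff i).natDegree) := by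
    intro i
    by_cases hi : i ≤ Φ.natDegree
    · exact Finset.le_sup (f := fun i => (Φ.coeff i).natDegree) (Finset.mem_range.2 (by omega))
    · rw [coeff_eq_zero_of_natDegree_lt (by omega)]
      simp
  generalize (Finset.range (Φ.natDegree + 1)).sup (fun i => (Φ.coeff i).natDegree) = e at he'
  have hevΦ : Φ.eval₂ ψ G = 0 := by
    apply hiA
    rw [← hev, hmu0, map_zero]
  refine ⟨Φ.natDegree, e, hd1, ?_⟩
  intro Q s hQs hQ
  have hrne : Φ.resultant Q Φ.natDegree Q.natDegree ≠ 0 := by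
    intro h0
    have h1 : resultant (Φ.map (algebraMap ℚ[X] K)) (Q.map (algebraMap ℚ[X] K)) = 0 := by
      have h2 := resultant_map_map Φ Q Φ.natDegree Q.natDegree (algebraMap ℚ[X] K)
      rw [h0, map_zero] at h2
      rw [natDegree_map_eq_of_injective hφinj, natDegree_map_eq_of_injective hφinj]
      exact h2
    rw [resultant_eq_zero_iff] at h1
    apply h1.2
    rw [hfirr.coprime_iff_not_dvd]
    intro hdvd
    apply hQ
    apply hiA
    rw [← hev, map_zero]
    obtain ⟨y, hy⟩ := hdvd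
    rw [hy, map_mul, hmu0, zero_mul]
  obtain ⟨p, q, _, _, hpq⟩ := exists_mul_add_mul_eq_C_resultant (m := Φ.natDegree)
    (n := Q.natDegree) Φ Q le_rfl le_rfl (Or.inl (by omega))
  refine ⟨Φ.resultant Q Φ.natDegree Q.natDegree, q.eval₂ ψ G, hrne, ?_, ?_⟩
  · refine (natDegree_resultant_le Φ Q _ _ e s he' hQs).trans (le_of_eq ?_)
    ring
  · have h1 := congrArg (fun P => eval₂ ψ G P) hpq
    simp only [eval₂_add, eval₂_mul, eval₂_C, hevΦ, zero_mul, zero_add] at h1
    exact h1.symm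

theorem elimF {A K F : Type*} [CommRing A] [IsDomain A] [Field K] [Field F] [Algebra ℚ[X] K]
    [IsFractionRing ℚ[X] K] [Algebra A F] [IsFractionRing A F] (ψ : ℚ[X] →+* A)
    (hψ : Function.Injective ψ)
    (G : A) (halg : ∃ Φ : ℚ[X][X], Φ ≠ 0 ∧ Φ.eval₂ ψ G = 0) :
    ∃ (d e : ℕ), 1 ≤ d ∧ ∀ (Q : ℚ[X][X]) (s : ℕ), (∀ i, (Q.coeff i).natDegree ≤ s) →
      Q.eval₂ ψ G ≠ 0 → ∃ (r : ℚ[X]) (y : A), r ≠ 0 ∧ r.natDegree ≤ d * s + e * Q.natDegree ∧
        ψ r = Q.eval₂ ψ G * y := by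
  have hinj : Function.Injective (algebraMap A F) := IsFractionRing.injective A F
  have hc : Function.Injective ((algebraMap A F).comp ψ) := fun x y h => hψ (hinj h)
  let Ψ : K →+* F := IsFractionRing.lift (A := ℚ[X]) (K := K) hc
  let _ : Algebra K F := Ψ.toAlgebra
  have hΨ : ∀ x, algebraMap K F (algebraMap ℚ[X] K x) = algebraMap A F (ψ x) := by
    intro x
    exact IsFractionRing.lift_algebraMap hc x
  exact elimK (K := K) (algebraMap A F) hinj ψ hΨ G halg

theorem elim {A : Type*} [CommRing A] [IsDomain A] (ψ : ℚ[X] →+* A) (hψ : Function.Injective ψ)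
    (G : A) (halg : ∃ Φ : ℚ[X][X], Φ ≠ 0 ∧ Φ.eval₂ ψ G = 0) :
    ∃ (d e : ℕ), 1 ≤ d ∧ ∀ (Q : ℚ[X][X]) (s : ℕ), (∀ i, (Q.coeff i).natDegree ≤ s) →
      Q.eval₂ ψ G ≠ 0 → ∃ (r : ℚ[X]) (y : A), r ≠ 0 ∧ r.natDegree ≤ d * s + e * Q.natDegree ∧
        ψ r = Q.eval₂ ψ G * y :=
  elimF (K := FractionRing ℚ[X]) (F := FractionRing A) ψ hψ G halg

end Run7.h632.GEN
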