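import Pool.Agent.Run7.h635.GEN.Stm
import Pool.Agent.Run7.h809.OD.Zero2
import Pool.Agent.Run7.h632.GEN.OrdA

/-!
ORD: orders of vanishing of polynomials in `u` and `G`.
-/

set_option autoImplicit false

namespace Run7.h632.GEN

open H809.OD H809.OD.Inst H635.GEN

theorem aeval_u_inj : Function.Injective
    (Polynomial.aeval u : Polynomial ℚ →ₐ[ℚ] PowerSeries ℚ).toRingHom := by
  rw [injective_iff_map_eq_zero]
  intro P hP
  by_contra hne
  refine ord_aeval P hne (P.natDegree + 1) (by omega) 0 ?_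
  rw [mul_zero]
  exact hP

theorem ord : H635.GEN.S_Ord := by
  intro G halg
  obtain ⟨d, e, hd, h⟩ := elim (Polynomial.aeval u : Polynomial ℚ →ₐ[ℚ] PowerSeries ℚ).toRingHom
    aeval_u_inj G halg
  refine ⟨d, hd, e, ?_⟩
  intro Q s t hQs hQt hQ
  obtain ⟨r, y, hr, hrd, hry⟩ := h Q s hQs hQ
  by_contra hcon
  push Not at hcon
  have hle : d * s + e * Q.natDegree ≤ d * s + e * t :=
    Nat.add_le_add_left (Nat.mul_le_mul_left _ hQt) _
  have hdvd : (PowerSeries.X : PowerSeries ℚ) ^ (d * s + e * t + 1) ∣ ev2 G Q := by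
    rw [PowerSeries.X_pow_dvd_iff]
    intro m hm
    exact hcon m (by omega)
  obtain ⟨z, hz⟩ := hdvd
  refine ord_aeval r hr (d * s + e * t + 1) (by omega) (z * y) ?_
  rw [← mul_assoc, ← hz]
  exact hry

end Run7.h632.GEN
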